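import Pool.Agent.Helper30.RCU.Main

/-!
# Uniqueness of random-cluster measures with finite susceptibility, `1 ≤ q ≤ 2`

Definitions (`Pool/Agent/Helper30/RCU/InfDefs.lean`): `openGraph`, `clusters`, `weight`, `kernel`,
`IsRandomCluster`. Configurations are sets of edges of `G` with the product sigma-algebra.
-/

set_option autoImplicit false

open MeasureTheory Pool.Agent.Helper30.RCU

namespace Pool.Agent.Results.MP_e3e162_pr.FiniteSusceptibilityUnique

universe u

/-- Let `G` be a connected locally finite vertex-transitive graph, `0 ≤ p ≤ 1`, `1 ≤ q ≤ 2`, `μ` a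
random-cluster infinite-volume measure with parameters `(p,q)` and `x` a vertex. (1) If for some `n`
the sum `a` of `μ(x ↔ y)` over the sphere `dist x y = n` is `< 1`, then `μ` is the only
random-cluster infinite-volume measure with parameters `(p,q)`, and
`μ(y ↔ z) ≤ a ^ (dist y z / n)` for all `y, z`. (2) If the sum of `μ(x ↔ y)` over all `y` is finite,
then there is such an `n`. -/
theorem result {V : Type u} (G : SimpleGraph V) (hG : G.Connected)
    (hlf : ∀ v, (G.neighborSet v).Finite) (htr : ∀ x y : V, ∃ g : G ≃g G, g x = y)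
    {p q : ℝ} (hp : 0 ≤ p ∧ p ≤ 1) (hq : 1 ≤ q ∧ q ≤ 2)
    {μ : Measure (Set G.edgeSet)} (hμ : IsRandomCluster G p q μ) (x : V) :
    (∀ n : ℕ,
      ∑' y : {y : V | G.dist x y = n}, μ {ω | (openGraph G ω).Reachable x y} < 1 →
      (∀ ν : Measure (Set G.edgeSet), IsRandomCluster G p q ν → ν = μ) ∧
      ∀ y z : V, μ {ω | (openGraph G ω).Reachable y z} ≤
        (∑' y : {y : V | G.dist x y = n}, μ {ω | (openGraph G ω).Reachable x y}) ^
          (G.dist y z / n)) ∧
    (∑' y : V, μ {ω | (openGraph G ω).Reachable x y} ≠ ⊤ →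
      ∃ n : ℕ, ∑' y : {y : V | G.dist x y = n}, μ {ω | (openGraph G ω).Reachable x y} < 1) := by
  refine ⟨fun n h => main G hG hlf htr hp.1 hp.2 hq.1 hq.2 hμ x n h, fun hfin => ?_⟩
  set f : V → ENNReal := fun y => μ {ω | (openGraph G ω).Reachable x y} with hf
  have h1 : ∑' n : ℕ, ∑' y : {y : V // G.dist x y = n}, f y = ∑' y : V, f y := by
    rw [← (Equiv.sigmaFiberEquiv (fun y => G.dist x y)).tsum_eq f, ENNReal.tsum_sigma']
    rfl
  have h2 : ∑' n : ℕ, ∑' y : {y : V // G.dist x y = n}, f y ≠ ⊤ := by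
    rw [h1]; exact hfin
  have h3 := ENNReal.tendsto_atTop_zero_of_tsum_ne_top h2
  obtain ⟨n, hn⟩ := (h3.eventually (gt_mem_nhds (zero_lt_one (α := ENNReal)))).exists
  exact ⟨n, hn⟩

end Pool.Agent.Results.MP_e3e162_pr.FiniteSusceptibilityUnique
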