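import Pool.Agent.Helper68.UQ.Asm

/-!
# Uniqueness of random-cluster measures for `1 ≤ q ≤ 2` on amenable transitive graphs

Definitions: `openGraph`, `clusters`, `weight`, `kernel`, `IsRandomCluster` in
`Pool/Agent/Helper30/RCU/InfDefs.lean`; `edgeBoundary`, `Amenable` in
`Pool/Agent/Helper98/UQ/Fin.lean`. Configurations are sets of open edges of `G` with the product
sigma-algebra.
-/

set_option autoImplicit false

open MeasureTheory Pool.Agent.Helper30.RCU Pool.Agent.Helper98.UQ

namespace Pool.Agent.Results.MP_e3e162_pr.UniqueRandomCluster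

universe u

/-- Let `G` be an infinite connected locally finite vertex-transitive amenable graph, `0 ≤ p ≤ 1` and
`1 ≤ q ≤ 2`. Then there is exactly one random-cluster infinite-volume measure with parameters
`(p,q)` on `G`. -/
theorem result {V : Type u} [Infinite V] (G : SimpleGraph V) (hG : G.Connected)
    (hlf : ∀ v : V, (G.neighborSet v).Finite) (htr : ∀ x y : V, ∃ g : G ≃g G, g x = y)
    (ham : Amenable G) (p q : ℝ) (hp : 0 ≤ p ∧ p ≤ 1) (hq : 1 ≤ q ∧ q ≤ 2) :
    ∃! μ : Measure (Set G.edgeSet), IsRandomCluster G p q μ :=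
  Pool.Agent.Helper68.UQ.fin V G hG hlf htr ham p q hp.1 hp.2 hq.1 hq.2

end Pool.Agent.Results.MP_e3e162_pr.UniqueRandomCluster
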